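import Pool.Agent.R975.FK.Main

set_option autoImplicit false

/-!
# Infinite FK-Ising clusters on a Gromov hyperbolic graph that are nowhere anchored hyperbolic

We construct an infinite, connected, locally finite, Gromov hyperbolic graph `G` with `p_c(G) = 0`
for FK-Ising percolation, such that for EVERY `p` with `p_c(G) = 0 < p < 1` a free FK-Ising measure
exists, and for every free FK-Ising measure (weak limit along any exhaustion) almost surely there
is an infinite cluster, and no infinite cluster is anchored Gromov hyperbolic: for each of its
vertices `v` and each `δ` some geodesic triangle of the cluster passing through `v` is not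
`δ`-thin.

The graph is a chain of gadgets: the cut vertices `x k`, `x (k+1)` are joined by many disjoint
copies of a fan (a hub adjacent to `x k`, `x (k+1)` and to all the `4(k+1)` vertices of a path, the
rim). All the vertices of the gadgets at level `k` are within distance two of `x k`, so `G` is
hyperbolic. By finite energy, almost surely at every high level one of the copies has this
pattern: hub connected to `x k` and `x (k+1)`, rim open, and the only open spokes are the two at
the ends of the rim. Then the cluster contains a pendant cycle of length `4(k+1) + 1`, and this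
gives thick geodesic triangles through every vertex `v` of the cluster.

All the definitions are in `Pool.Agent.R975.FK.Defs`: configurations, finite subgraphs, the
FK-Ising measure (`q = 2`) of a finite graph, free FK-Ising measures, `p_c`, geodesics, thin
triangles, Gromov hyperbolicity and anchored Gromov hyperbolicity.
-/

open MeasureTheory Pool.Agent.R975.FK

namespace Pool.Agent.Results.MP_4ab6d1_pr.PendantCycles

theorem result :
    ∃ (V : Type) (_ : Countable V) (G : SimpleGraph V),
      Infinite V ∧ G.Connected ∧ (∀ v, (G.neighborSet v).Finite) ∧ GromovHyperbolic G ∧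
      pc G = 0 ∧
      ∀ p : ℝ, 0 < p → p < 1 →
        (∃ μ, IsFreeFK G p μ) ∧
        ∀ μ, IsFreeFK G p μ → ∀ᵐ ω ∂μ, HasInfCluster G ω ∧
          ∀ C : (openGraph G ω).ConnectedComponent, C.supp.Infinite →
            ¬ AnchoredHyperbolic C.toSimpleGraph ∧
            ∀ v : C, ¬ AnchoredAt C.toSimpleGraph v := by
  obtain ⟨V, hV, G, h1, h2, h3, h4, h5, h6⟩ := main_theorem
  refine ⟨V, hV, G, h1, h2, h3, h4, h5, fun p hp0 hp1 => ⟨(h6 p hp0 hp1).1, fun μ hμ => ?_⟩⟩
  filter_upwards [(h6 p hp0 hp1).2 μ hμ] with ω hω
  refine ⟨hω.1, fun C hC => ⟨fun h => ?_, hω.2 C hC⟩⟩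
  obtain ⟨v, hv⟩ := C.nonempty_supp
  exact hω.2 C hC ⟨v, hv⟩ (h ⟨v, hv⟩)

end Pool.Agent.Results.MP_4ab6d1_pr.PendantCycles
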